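import Mathlib

/-!
# The variance of primes in progressions and zeros of Dirichlet L-functions (MP_5dd4bb_nt)

A bound `G(X, Q) ≤ X^(1+o(1))` for one multiple `Q ≈ X^θ` of `m` for each `X` gives
`|ψ(X, χ) - δ X| ≤ X^((1+θ)/2 + o(1))` for the characters modulo `m`, so their L-functions have no zeros with
`Re s > (1+θ)/2`. Definitions and statements of the pieces.
-/

set_option autoImplicit false

namespace Pool.Agent.E8helper22.VQ

open Finset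
open scoped ArithmeticFunction.vonMangoldt

/-- `ψ(X; Q, A)` -/
noncomputable def psi (X : ℝ) (Q A : ℕ) : ℝ :=
  ∑ n ∈ (Icc 1 ⌊X⌋₊).filter (fun n => n ≡ A [MOD Q]), ArithmeticFunction.vonMangoldt n

/-- `G(X, Q)` -/
noncomputable def G (X : ℝ) (Q : ℕ) : ℝ :=
  ∑ A ∈ (range Q).filter (fun A => A.Coprime Q), (psi X Q A - X / Nat.totient Q) ^ 2

/-- `ψ(X, χ)` -/
noncomputable def psiC {m : ℕ} (χ : DirichletCharacter ℂ m) (X : ℝ) : ℂ :=
  ∑ n ∈ Icc 1 ⌊X⌋₊, χ (n : ZMod m) * (ArithmeticFunction.vonMangoldt n : ℂ)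

open Classical in
/-- `X` for the principal character, otherwise `0` -/
noncomputable def mainT {m : ℕ} (χ : DirichletCharacter ℂ m) (X : ℝ) : ℂ := if χ = 1 then (X : ℂ) else 0

/-- VQ1 (ORT): the sum of a character modulo `m` over the reduced residues modulo a multiple. -/
def S_ORT : Prop := ∀ (m Q : ℕ) (χ : DirichletCharacter ℂ m), 0 < Q → m ∣ Q →
  ∑ A ∈ (range Q).filter (fun A => A.Coprime Q), χ ((A : ℕ) : ZMod m) = mainT χ (Nat.totient Q : ℝ)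

/-- VQ2 (NCP): the prime powers not prime to `Q`. -/
def S_NCP : Prop := ∀ (Q : ℕ) (X : ℝ), 0 < Q → 1 ≤ X →
  ∑ n ∈ (Icc 1 ⌊X⌋₊).filter (fun n => ¬ n.Coprime Q), ArithmeticFunction.vonMangoldt n ≤
    2 * Real.log Q * Real.log X

/-- VQ3 (CS): Cauchy-Schwarz. -/
def S_CS : Prop := ∀ (m Q : ℕ) (χ : DirichletCharacter ℂ m) (X : ℝ), 0 < Q → m ∣ Q → 1 ≤ X →
  ‖psiC χ X - mainT χ X‖ ≤ √(Nat.totient Q * G X Q) + 2 * Real.log Q * Real.log X

/-- VQ4 (NV): a power saving bound gives a half-plane without zeros. -/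
def S_NV : Prop := ∀ (m : ℕ) [NeZero m] (χ : DirichletCharacter ℂ m) (a C : ℝ), 0 < a → a < 1 →
  (∀ n : ℕ, 1 ≤ n → ‖psiC χ n - mainT χ n‖ ≤ C * (n : ℝ) ^ a) →
  ∀ s : ℂ, a < s.re → s ≠ 1 → χ.LFunction s ≠ 0

/-- VQ5 (ODE): an analytic function with `f' = g f` and a zero vanishes near the zero. -/
def S_ODE : Prop := ∀ (f g : ℂ → ℂ) (z : ℂ), AnalyticAt ℂ f z → AnalyticAt ℂ g z → f z = 0 →
  (∀ᶠ w in nhds z, deriv f w = g w * f w) → ∀ᶠ w in nhds z, f w = 0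

/-- VQ6 (MEL): the integral is holomorphic. -/
def S_MEL : Prop := ∀ (F : ℕ → ℂ) (a C : ℝ), 0 < a → (∀ n : ℕ, 1 ≤ n → ‖F n‖ ≤ C * (n : ℝ) ^ a) →
  ∀ s : ℂ, a < s.re →
    DifferentiableAt ℂ (fun s : ℂ => s * ∫ t in Set.Ioi (1 : ℝ), F ⌊t⌋₊ * (t : ℂ) ^ (-(s + 1))) s

end Pool.Agent.E8helper22.VQ
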